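import Pool.Agent.W369.GM.Defs
set_option autoImplicit false

/-! A norm is differentiable at a dense set. -/

namespace Pool.Agent.W345.GM2

open MeasureTheory Set Metric Filter Topology
open scoped RealInnerProductSpace NNReal
open Pool.Agent.W369.GM

variable {d : ℕ}

lemma zero_mem_int {M : Set (E d)} (h : Body M) : (0 : E d) ∈ interior M := by
  obtain ⟨x, hx⟩ := h.inter
  have hneg : -x ∈ interior M := by
    have h1 : interior M = Neg.neg ⁻¹' interior M := by
      have h2 : M = Neg.neg ⁻¹' M := by
        ext y
        constructor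
        · intro hy; exact h.symm y hy
        · intro hy
          have := h.symm _ hy
          rwa [neg_neg] at this
      conv_lhs => rw [h2]
      exact ((Homeomorph.neg (E d)).preimage_interior M).symm
    rw [h1] at hx
    exact hx
  have h3 := h.convex.interior hx hneg (by norm_num : (0:ℝ) ≤ 1 / 2) (by norm_num : (0:ℝ) ≤ 1 / 2)
    (by norm_num)
  rw [smul_neg, add_neg_cancel] at h3
  exact h3

theorem dense : Pool.Agent.W369.GM.S_DENSE := by
  intro d M hd hM
  have h0 := mem_interior_iff_mem_nhds.1 (zero_mem_int hM)
  obtain ⟨C, hlip⟩ := hM.convex.lipschitz_gauge h0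
  have h1 : ∀ᵐ x : E d, DifferentiableAt ℝ (gauge M) x := hlip.ae_differentiableAt
  have : Nontrivial (E d) := by
    have : Nonempty (Fin d) := ⟨⟨0, hd⟩⟩
    infer_instance
  have h2 : ∀ᵐ x : E d, x ≠ 0 := by
    rw [ae_iff]
    simp
  have h3 := h2.and h1
  exact Measure.dense_of_ae h3

end Pool.Agent.W345.GM2
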