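import Pool.Agent.W345.GM2.DENSE
set_option autoImplicit false

/-! A body with affine reflections in a dense set of directions is an ellipsoid. -/

namespace Pool.Agent.W345.GM2

open MeasureTheory Set Metric Filter Topology
open scoped RealInnerProductSpace NNReal
open Pool.Agent.W369.GM

variable {d : ℕ}

lemma body_image {M : Set (E d)} (hM : Body M) (A : E d ≃ₗ[ℝ] E d) : Body (A '' M) := by
  have hc : Continuous A := LinearMap.continuous_of_finiteDimensional A.toLinearMap
  refine ⟨hM.compact.image hc, ?_, ?_, ?_⟩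
  · exact hM.convex.linear_image A.toLinearMap
  · rintro _ ⟨x, hx, rfl⟩
    exact ⟨-x, hM.symm x hx, by rw [map_neg]⟩
  · obtain ⟨x, hx⟩ := hM.inter
    have h1 : A.toContinuousLinearEquiv '' interior M = interior (A.toContinuousLinearEquiv '' M) :=
      A.toContinuousLinearEquiv.toHomeomorph.image_interior M
    refine ⟨A x, ?_⟩
    have h2 : A.toContinuousLinearEquiv x ∈ interior (A.toContinuousLinearEquiv '' M) := by
      rw [← h1]; exact ⟨x, hx, rfl⟩
    exact h2

/-- the orthogonal reflection -/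
noncomputable def rf (u x : E d) : E d := x - (2 * (⟪u, x⟫ / ‖u‖ ^ 2)) • u

lemma rf_of_refl {M : Set (E d)} (hiso : ∀ R : E d ≃ₗ[ℝ] E d, R '' M = M → ∀ x, ‖R x‖ = ‖x‖)
    {u : E d} (h : Refl M u) : ∀ x ∈ M, rf u x ∈ M := by
  obtain ⟨hu, θ, hθ, hR⟩ := h
  let Rl : E d →ₗ[ℝ] E d := LinearMap.id - (2 : ℝ) • θ.smulRight u
  have hRl : ∀ x, Rl x = x - (2 * θ x) • u := by
    intro x
    simp [Rl, mul_smul]
  have hinv : Function.Involutive Rl := by
    intro x
    rw [hRl (Rl x), hRl x, map_sub, map_smul, hθ, smul_eq_mul, mul_one, sub_sub, ← add_smul]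
    have : 2 * θ x + 2 * (θ x - 2 * θ x) = 0 := by ring
    rw [this, zero_smul, sub_zero]
  let R : E d ≃ₗ[ℝ] E d := LinearEquiv.ofInvolutive Rl hinv
  have hRR : ∀ x, R x = x - (2 * θ x) • u := hRl
  have himg : R '' M = M := by
    apply Set.Subset.antisymm
    · rintro _ ⟨x, hx, rfl⟩
      rw [hRR]
      exact hR x hx
    · intro x hx
      refine ⟨R x, ?_, hinv x⟩
      rw [hRR]
      exact hR x hx
  have hn := hiso R himg
  have hu2 : 0 < ‖u‖ ^ 2 := by
    have := norm_pos_iff.2 hu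
    positivity
  have key : ∀ x, θ x * (θ x * ‖u‖ ^ 2 - ⟪u, x⟫) = 0 := by
    intro x
    have h1 := hn x
    rw [hRR] at h1
    have h2 : ‖x - (2 * θ x) • u‖ ^ 2 = ‖x‖ ^ 2 := by rw [h1]
    rw [norm_sub_sq_real, inner_smul_right, norm_smul, mul_pow, Real.norm_eq_abs, sq_abs,
      real_inner_comm] at h2
    linarith
  have hθx : ∀ x, θ x = ⟪u, x⟫ / ‖u‖ ^ 2 := by
    intro x
    rw [eq_div_iff hu2.ne']
    rcases eq_or_ne (θ x) 0 with h0 | h0
    · have h1 := key (x + u)
      rw [map_add, hθ, h0, zero_add, one_mul, one_mul, inner_add_right,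
        real_inner_self_eq_norm_sq] at h1
      rw [h0, zero_mul]
      linarith
    · have := (mul_eq_zero.1 (key x)).resolve_left h0
      linarith
  intro x hx
  unfold rf
  rw [← hθx]
  exact hR x hx

theorem ell (hI : Pool.Agent.W369.GM.S_INER) : Pool.Agent.W369.GM.S_ELL := by
  intro d M hd hM hdense
  obtain ⟨A, hA⟩ := hI d M hM
  have hM' := body_image hM A
  set M' := A '' M with hM'def
  have hcA : Continuous A := LinearMap.continuous_of_finiteDimensional A.toLinearMap
  have hd' : Dense (A '' {u : E d | Refl M u}) :=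
    A.surjective.denseRange.dense_image hcA hdense
  have hR1 : ∀ u ∈ A '' {u : E d | Refl M u}, Refl M' u := by
    rintro _ ⟨u, ⟨hu, θ, hθ, h⟩, rfl⟩
    refine ⟨fun h0 => hu (A.injective (by rw [h0, map_zero])),
      θ.comp A.symm.toLinearMap, by simpa using hθ, ?_⟩
    rintro _ ⟨m, hm, rfl⟩
    refine ⟨_, h m hm, ?_⟩
    simp
  have hR2 : ∀ u : E d, u ≠ 0 → ∀ x ∈ M', rf u x ∈ M' := by
    intro u hu x hx
    have hc : ContinuousAt (fun v : E d => rf v x) u := by
      unfold rf
      have hne : ‖u‖ ^ 2 ≠ 0 := by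
        have := norm_pos_iff.2 hu
        positivity
      fun_prop (disch := assumption)
    have h1 := mem_closure_image hc (hd' u)
    have h2 : (fun v : E d => rf v x) '' (A '' {u : E d | Refl M u}) ⊆ M' := by
      rintro _ ⟨v, hv, rfl⟩
      exact rf_of_refl hA (hR1 v hv) x hx
    exact hM'.compact.isClosed.closure_subset_iff.2 h2 h1
  have h0 : (0 : E d) ∈ M' := interior_subset (zero_mem_int hM')
  obtain ⟨x, hx, hmax⟩ := hM'.compact.exists_isMaxOn ⟨0, h0⟩ continuous_norm.continuousOn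
  have hmax' : ∀ y ∈ M', ‖y‖ ≤ ‖x‖ := fun y hy => hmax hy
  have : Nontrivial (E d) := by
    have : Nonempty (Fin d) := ⟨⟨0, hd⟩⟩
    infer_instance
  have hr : 0 < ‖x‖ := by
    have h1 := zero_mem_int hM'
    rw [mem_interior_iff_mem_nhds, Metric.mem_nhds_iff] at h1
    obtain ⟨ε, hε, hsub⟩ := h1
    obtain ⟨y, hy⟩ := exists_norm_eq (E d) (show (0:ℝ) ≤ ε / 2 by positivity)
    have h2 := hmax' y (hsub (by rw [mem_ball_zero_iff, hy]; linarith))
    linarith
  have hsph : ∀ y : E d, ‖y‖ = ‖x‖ → y ∈ M' := by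
    intro y hy
    by_cases hxy : y = x
    · rw [hxy]; exact hx
    · have hne : x - y ≠ 0 := sub_ne_zero.2 (Ne.symm hxy)
      have h1 := hR2 (x - y) hne x hx
      have h2 : rf (x - y) x = y := by
        unfold rf
        have hpos : 0 < ‖x - y‖ ^ 2 := by
          have := norm_pos_iff.2 hne
          positivity
        have h3 : 2 * (⟪x - y, x⟫ / ‖x - y‖ ^ 2) = 1 := by
          rw [mul_div_assoc', div_eq_one_iff_eq hpos.ne', norm_sub_sq_real, inner_sub_left,
            real_inner_self_eq_norm_sq, hy, real_inner_comm]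
          ring
        rw [h3, one_smul]
        abel
      rwa [h2] at h1
  have hball : M' = closedBall 0 ‖x‖ := by
    apply Set.Subset.antisymm
    · intro y hy
      rw [mem_closedBall_zero_iff]
      exact hmax' y hy
    · intro z hz
      rw [mem_closedBall_zero_iff] at hz
      rcases eq_or_ne z 0 with h1 | h1
      · rw [h1]; exact h0
      · have hz0 := norm_pos_iff.2 h1
        have h2 := hsph ((‖x‖ / ‖z‖) • z) (by
          rw [norm_smul, Real.norm_of_nonneg (by positivity), div_mul_cancel₀ _ hz0.ne'])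
        have h3 := hM'.convex.smul_mem_of_zero_mem h0 h2 (t := ‖z‖ / ‖x‖)
          ⟨by positivity, (div_le_one hr).2 hz⟩
        rw [smul_smul] at h3
        have h4 : ‖z‖ / ‖x‖ * (‖x‖ / ‖z‖) = 1 := by field_simp
        rwa [h4, one_smul] at h3
  refine ⟨(LinearEquiv.smulOfNeZero ℝ (E d) ‖x‖ hr.ne').trans A.symm, ?_⟩
  ext m
  constructor
  · intro hm
    have h1 : A m ∈ closedBall (0 : E d) ‖x‖ := by
      rw [← hball]; exact ⟨m, hm, rfl⟩
    rw [mem_closedBall_zero_iff] at h1
    refine ⟨‖x‖⁻¹ • A m, ?_, ?_⟩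
    · rw [mem_closedBall_zero_iff, norm_smul, norm_inv, norm_norm, inv_mul_le_iff₀ hr, mul_one]
      exact h1
    · show A.symm (‖x‖ • (‖x‖⁻¹ • A m)) = m
      rw [smul_smul, mul_inv_cancel₀ hr.ne', one_smul, LinearEquiv.symm_apply_apply]
  · rintro ⟨y, hy, rfl⟩
    rw [mem_closedBall_zero_iff] at hy
    have h1 : ‖x‖ • y ∈ M' := by
      rw [hball, mem_closedBall_zero_iff, norm_smul, norm_norm]
      exact mul_le_of_le_one_right hr.le hy
    obtain ⟨m, hm, h2⟩ := h1
    show A.symm (‖x‖ • y) ∈ M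
    rw [← h2, LinearEquiv.symm_apply_apply]
    exact hm

end Pool.Agent.W345.GM2
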