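import Pool.Agent.W369.GM.Defs
set_option autoImplicit false

/-! Existence of a set of minimal circumradius. -/

namespace Pool.Agent.W345.GM2

open MeasureTheory Set Metric Filter Topology
open scoped RealInnerProductSpace NNReal
open Pool.Agent.W369.GM

variable {d : ℕ}

/-- the ultralimit of a sequence of sets -/
def Lim (F : Ultrafilter ℕ) (L : ℕ → Set (E d)) : Set (E d) :=
  {x | ∀ ε > 0, ∀ᶠ n in (F : Filter ℕ), ∃ y ∈ L n, dist x y < ε}

lemma Lim_closed (F : Ultrafilter ℕ) (L : ℕ → Set (E d)) : IsClosed (Lim F L) := by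
  rw [← closure_subset_iff_isClosed]
  intro x hx ε hε
  obtain ⟨x', hx', hd⟩ := Metric.mem_closure_iff.1 hx (ε / 2) (by positivity)
  filter_upwards [hx' (ε / 2) (by positivity)] with n ⟨y, hy, hy'⟩
  refine ⟨y, hy, ?_⟩
  calc dist x y ≤ dist x x' + dist x' y := dist_triangle _ _ _
    _ < ε / 2 + ε / 2 := add_lt_add hd hy'
    _ = ε := by ring

lemma mem_Lim {F : Ultrafilter ℕ} {L : ℕ → Set (E d)} {x : ℕ → E d} {a : E d}
    (h : ∀ᶠ n in (F : Filter ℕ), x n ∈ L n) (ha : Tendsto x F (𝓝 a)) : a ∈ Lim F L := by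
  intro ε hε
  filter_upwards [h, Metric.tendsto_nhds.1 ha ε hε] with n h1 h2
  exact ⟨x n, h1, by rw [dist_comm]; exact h2⟩

lemma exists_lim {F : Ultrafilter ℕ} {R : ℝ} {x : ℕ → E d}
    (h : ∀ᶠ n in (F : Filter ℕ), x n ∈ closedBall (0 : E d) R) :
    ∃ a : E d, Tendsto x F (𝓝 a) := by
  have hc : IsCompact (closedBall (0 : E d) R) := isCompact_closedBall _ _
  obtain ⟨a, -, ha⟩ := hc.ultrafilter_le_nhds (F.map x) (by
    rw [le_principal_iff]
    exact h)
  exact ⟨a, ha⟩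

lemma sub_cth {F : Ultrafilter ℕ} {L : ℕ → Set (E d)} {R : ℝ}
    (h : ∀ᶠ n in (F : Filter ℕ), L n ⊆ closedBall (0 : E d) R) {ε : ℝ} (hε : 0 < ε) :
    ∀ᶠ n in (F : Filter ℕ), L n ⊆ cthickening ε (Lim F L) := by
  by_contra hcon
  have h1 : ∀ᶠ n in (F : Filter ℕ), ¬ L n ⊆ cthickening ε (Lim F L) :=
    Ultrafilter.eventually_not.2 hcon
  have h2 : ∀ n, ∃ x : E d, ¬ L n ⊆ cthickening ε (Lim F L) → x ∈ L n ∧
      x ∉ cthickening ε (Lim F L) := by
    intro n
    by_cases hn : L n ⊆ cthickening ε (Lim F L)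
    · exact ⟨0, fun h => absurd hn h⟩
    · obtain ⟨x, hx, hx'⟩ := Set.not_subset.1 hn
      exact ⟨x, fun _ => ⟨hx, hx'⟩⟩
  choose x hx using h2
  have h3 : ∀ᶠ n in (F : Filter ℕ), x n ∈ L n := by
    filter_upwards [h1] with n hn
    exact (hx n hn).1
  obtain ⟨a, ha⟩ := exists_lim (F := F) (x := x) (R := R) (by
    filter_upwards [h, h3] with n h4 h5
    exact h4 h5)
  have haL := mem_Lim h3 ha
  have h4 := Metric.tendsto_nhds.1 ha ε hε
  obtain ⟨n, hn1, hn2⟩ := (h1.and h4).exists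
  apply (hx n hn1).2
  exact mem_cthickening_of_dist_le _ _ _ _ haL hn2.le

lemma dt_cont : Continuous (dt : (Fin d → E d) → ℝ) := by
  unfold dt
  apply Continuous.abs
  apply Continuous.matrix_det
  apply continuous_pi
  intro i
  apply continuous_pi
  intro j
  simp only [Matrix.of_apply]
  fun_prop

theorem min : Pool.Agent.W369.GM.S_MIN := by
  intro d D V K hK hne hV hD
  set S : Set ℝ := {r' | ∃ L' : Set (E d), IsCompact L' ∧ L'.Nonempty ∧ V ≤ volume L' ∧
    DB L' D ∧ L' ⊆ closedBall 0 r'} with hS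
  have hSne : S.Nonempty := by
    obtain ⟨R, hR⟩ := hK.isBounded.subset_closedBall 0
    exact ⟨R, K, hK, hne, hV, hD, hR⟩
  have hSb : BddBelow S := by
    refine ⟨0, ?_⟩
    rintro r' ⟨L', -, ⟨x, hx⟩, -, -, h⟩
    have := h hx
    rw [mem_closedBall_zero_iff] at this
    exact (norm_nonneg _).trans this
  have hseq : ∀ n : ℕ, ∃ r', r' < sInf S + 1 / ((n : ℝ) + 1) ∧ ∃ L' : Set (E d), IsCompact L' ∧
      L'.Nonempty ∧ V ≤ volume L' ∧ DB L' D ∧ L' ⊆ closedBall 0 r' := by
    intro n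
    obtain ⟨r', h1, h2⟩ := exists_lt_of_csInf_lt hSne
      (show sInf S < sInf S + 1 / ((n : ℝ) + 1) by
        have : 0 < 1 / ((n : ℝ) + 1) := by positivity
        linarith)
    exact ⟨r', h2, h1⟩
  choose ρ hρ L hLc hLne hLV hLD hLb using hseq
  set F : Ultrafilter ℕ := Filter.hyperfilter ℕ with hF
  have hFat : (F : Filter ℕ) ≤ atTop := by
    rw [← Nat.cofinite_eq_atTop]
    exact Filter.hyperfilter_le_cofinite
  have hsmall : ∀ ε > 0, ∀ᶠ n in (F : Filter ℕ), ρ n < sInf S + ε := by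
    intro ε hε
    have h1 : Tendsto (fun n : ℕ => 1 / ((n : ℝ) + 1)) atTop (𝓝 0) :=
      tendsto_one_div_add_atTop_nhds_zero_nat
    have h2 := (h1.mono_left hFat).eventually (gt_mem_nhds hε)
    filter_upwards [h2] with n hn
    linarith [hρ n]
  have hbd : ∀ᶠ n in (F : Filter ℕ), L n ⊆ closedBall (0 : E d) (sInf S + 1) := by
    filter_upwards [hsmall 1 one_pos] with n hn
    exact (hLb n).trans (closedBall_subset_closedBall hn.le)
  have hsub : Lim F L ⊆ closedBall 0 (sInf S) := by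
    intro x hx
    rw [mem_closedBall_zero_iff]
    apply le_of_forall_pos_le_add
    intro ε hε
    obtain ⟨n, ⟨y, hy, hxy⟩, hn⟩ :=
      ((hx (ε / 2) (by positivity)).and (hsmall (ε / 2) (by positivity))).exists
    have h1 := hLb n hy
    rw [mem_closedBall_zero_iff] at h1
    have h2 : ‖x‖ ≤ ‖y‖ + dist x y := by
      rw [dist_eq_norm]
      calc ‖x‖ = ‖y + (x - y)‖ := by rw [add_sub_cancel]
        _ ≤ _ := norm_add_le _ _
    linarith
  have hcomp : IsCompact (Lim F L) :=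
    (isCompact_closedBall (0 : E d) (sInf S)).of_isClosed_subset (Lim_closed F L) hsub
  refine ⟨Lim F L, sInf S, hcomp, ?_, ?_, ?_, hsub, ?_⟩
  · choose x hx using hLne
    obtain ⟨a, ha⟩ := exists_lim (F := F) (x := x) (R := sInf S + 1) (by
      filter_upwards [hbd] with n h4
      exact h4 (hx n))
    exact ⟨a, mem_Lim (Eventually.of_forall hx) ha⟩
  · have h1 := tendsto_measure_cthickening_of_isCompact (μ := (volume : Measure (E d))) hcomp
    have h2 : ∀ᶠ ε : ℝ in 𝓝[>] 0, V ≤ volume (cthickening ε (Lim F L)) := by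
      filter_upwards [self_mem_nhdsWithin] with ε hε
      obtain ⟨n, hn⟩ := (sub_cth hbd hε).exists
      exact (hLV n).trans (measure_mono hn)
    exact ge_of_tendsto (h1.mono_left nhdsWithin_le_nhds) h2
  · intro v hv
    by_contra hcon
    rw [not_le] at hcon
    have h1 : ∀ᶠ w in 𝓝 v, D < dt w := (dt_cont.tendsto v).eventually (lt_mem_nhds hcon)
    obtain ⟨ε, hε, h2⟩ := Metric.eventually_nhds_iff.1 h1
    have h3 : ∀ᶠ n in (F : Filter ℕ), ∀ i, ∃ y ∈ L n, dist (v i) y < ε := by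
      rw [eventually_all]
      intro i
      exact hv i ε hε
    obtain ⟨n, hn⟩ := h3.exists
    choose y hy hdy using hn
    have h4 : dist y v < ε := by
      rw [dist_pi_lt_iff hε]
      intro i
      rw [dist_comm]
      exact hdy i
    exact absurd (hLD n y hy) (not_le.2 (h2 h4))
  · intro L' r' h1 h2 h3 h4 h5
    exact csInf_le hSb ⟨L', h1, h2, h3, h4, h5⟩

end Pool.Agent.W345.GM2
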