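import Pool.Agent.W345.GM2.STV
set_option autoImplicit false

/-! Balls and contact points under symmetrisation. -/

namespace Pool.Agent.W345.GM2

open MeasureTheory Set Metric
open scoped RealInnerProductSpace
open Pool.Agent.W369.GM

variable {d : ℕ}

lemma norm_proj {u : E d} (hu : ‖u‖ = 1) (x : E d) (t : ℝ) :
    ‖x - ⟪u, x⟫ • u + t • u‖ ^ 2 = ‖x - ⟪u, x⟫ • u‖ ^ 2 + t ^ 2 := by
  have h := inner_proj hu x 0
  rw [zero_smul, add_zero] at h
  have h' : ⟪x - ⟪u, x⟫ • u, u⟫ = 0 := by rw [real_inner_comm]; exact h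
  rw [norm_add_sq_real, norm_smul, hu, mul_one, inner_smul_right, h']
  simp

theorem str : Pool.Agent.W369.GM.S_STR := by
  intro d u K r hu hK hKr
  have main : ∀ x ∈ St u K, 0 ≤ r ∧ ∃ c : ℝ, 0 ≤ c ∧ c ^ 2 = r ^ 2 - ‖x - ⟪u, x⟫ • u‖ ^ 2 ∧
      slice u K x ⊆ Icc (-c) c ∧ |⟪u, x⟫| ≤ c := by
    rintro x ⟨⟨t0, ht0⟩, hx⟩
    have hb : ∀ t ∈ slice u K x, ‖x - ⟪u, x⟫ • u‖ ^ 2 + t ^ 2 ≤ r ^ 2 ∧ 0 ≤ r := by
      intro t ht
      have h1 := hKr (show x - ⟪u, x⟫ • u + t • u ∈ K from ht)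
      rw [mem_closedBall_zero_iff] at h1
      have hr : 0 ≤ r := (norm_nonneg _).trans h1
      rw [← norm_proj hu]
      exact ⟨pow_le_pow_left₀ (norm_nonneg _) h1 2, hr⟩
    have h0 := hb t0 ht0
    have hnn : 0 ≤ r ^ 2 - ‖x - ⟪u, x⟫ • u‖ ^ 2 := by nlinarith [sq_nonneg t0]
    refine ⟨h0.2, Real.sqrt (r ^ 2 - ‖x - ⟪u, x⟫ • u‖ ^ 2), Real.sqrt_nonneg _,
      Real.sq_sqrt hnn, ?_, ?_⟩
    · intro t ht
      rw [mem_Icc, ← abs_le]
      apply Real.abs_le_sqrt
      linarith [(hb t ht).1]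
    · have hsub : slice u K x ⊆ Icc (-Real.sqrt (r ^ 2 - ‖x - ⟪u, x⟫ • u‖ ^ 2))
          (Real.sqrt (r ^ 2 - ‖x - ⟪u, x⟫ • u‖ ^ 2)) := by
        intro t ht
        rw [mem_Icc, ← abs_le]
        apply Real.abs_le_sqrt
        linarith [(hb t ht).1]
      have h1 := hx.trans (measure_mono hsub)
      rw [Real.volume_Icc] at h1
      have h2 := (ENNReal.ofReal_le_ofReal_iff (by
        have := Real.sqrt_nonneg (r ^ 2 - ‖x - ⟪u, x⟫ • u‖ ^ 2)
        linarith)).1 h1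
      linarith
  have hnorm : ∀ x : E d, ‖x‖ ^ 2 = ‖x - ⟪u, x⟫ • u‖ ^ 2 + ⟪u, x⟫ ^ 2 := by
    intro x
    have := norm_proj hu x ⟪u, x⟫
    rw [sub_add_cancel] at this
    exact this
  constructor
  · intro x hx
    obtain ⟨hr, c, hc0, hc, -, hle⟩ := main x hx
    rw [mem_closedBall_zero_iff]
    have h1 : ⟪u, x⟫ ^ 2 ≤ c ^ 2 := sq_le_sq' (by linarith [(abs_le.1 hle).1]) (abs_le.1 hle).2
    have h2 : ‖x‖ ^ 2 ≤ r ^ 2 := by
      have h3 := hnorm x
      linarith
    exact (abs_le_of_sq_le_sq' h2 hr).2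
  · intro x hx hxr
    obtain ⟨hr, c, hc0, hc, hsub, hle⟩ := main x hx
    have h1 : ⟪u, x⟫ ^ 2 = c ^ 2 := by
      rw [hc, ← hxr, hnorm x]
      ring
    have h2 : |⟪u, x⟫| = c := by
      rw [← Real.sqrt_sq_eq_abs, h1, Real.sqrt_sq hc0]
    have hcont : Continuous fun t : ℝ => x - ⟪u, x⟫ • u + t • u := by fun_prop
    have hcl : IsClosed (slice u K x) := hK.isClosed.preimage hcont
    have hall : Icc (-c) c ⊆ slice u K x := by
      rcases hc0.eq_or_lt with h0 | hpos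
      · obtain ⟨⟨t0, ht0⟩, -⟩ := hx
        have h3 := hsub ht0
        rw [← h0] at h3 ⊢
        rw [neg_zero, Icc_self, mem_singleton_iff] at h3
        rw [neg_zero, Icc_self, singleton_subset_iff, ← h3]
        exact ht0
      · have hv : volume (Icc (-c) c) ≤ volume (slice u K x) := by
          rw [Real.volume_Icc]
          refine le_trans (le_of_eq ?_) hx.2
          rw [h2]
          congr 1
          ring
        have hfin : volume (slice u K x) ≠ ⊤ :=
          ((measure_mono hsub).trans_lt (by simp)).ne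
        have h3 : volume (Icc (-c) c \ slice u K x) = 0 := by
          rw [measure_sdiff hsub hcl.measurableSet.nullMeasurableSet hfin]
          exact tsub_eq_zero_of_le hv
        have h4 : volume (Ioo (-c) c \ slice u K x) = 0 :=
          measure_mono_null (sdiff_subset_sdiff_left Ioo_subset_Icc_self) h3
        have ho : IsOpen (Ioo (-c) c \ slice u K x) := isOpen_Ioo.sdiff hcl
        have h5 := ho.measure_eq_zero_iff (μ := (volume : Measure ℝ)) |>.1 h4
        have h6 : Ioo (-c) c ⊆ slice u K x := sdiff_eq_empty.1 h5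
        rw [← closure_Ioo (by linarith : -c ≠ c)]
        exact closure_minimal h6 hcl
    have h3 : ⟪u, x⟫ ∈ slice u K x := hall (by
      rw [mem_Icc, ← abs_le, h2])
    have h4 : -⟪u, x⟫ ∈ slice u K x := hall (by
      rw [mem_Icc, ← abs_le, abs_neg, h2])
    constructor
    · have : x - ⟪u, x⟫ • u + ⟪u, x⟫ • u ∈ K := h3
      rwa [sub_add_cancel] at this
    · have : x - ⟪u, x⟫ • u + (-⟪u, x⟫) • u ∈ K := h4
      have e : x - ⟪u, x⟫ • u + (-⟪u, x⟫) • u = x - (2 * ⟪u, x⟫) • u := by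
        rw [mul_smul, two_smul, neg_smul]
        abel
      rwa [e] at this

end Pool.Agent.W345.GM2
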