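import Pool.Agent.W369.GM.Defs
set_option autoImplicit false

/-! Steiner symmetrisation preserves the volume. -/

namespace Pool.Agent.W345.GM2

open MeasureTheory Set Metric
open scoped RealInnerProductSpace
open Pool.Agent.W369.GM

variable {d : ℕ}

/-- the exchange of coordinates -/
noncomputable def TT (u : E d) : (E d × ℝ) →ₗ[ℝ] (E d × ℝ) where
  toFun p := (p.1 - ⟪u, p.1⟫ • u + p.2 • u, ⟪u, p.1⟫)
  map_add' p q := by
    ext1
    · simp only [Prod.fst_add, Prod.snd_add, inner_add_right, add_smul]
      abel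
    · simp only [Prod.fst_add, Prod.snd_add, inner_add_right]
  map_smul' c p := by
    ext1
    · simp only [Prod.smul_fst, Prod.smul_snd, inner_smul_right, smul_eq_mul, RingHom.id_apply,
        smul_add, smul_sub, mul_smul]
    · simp only [Prod.smul_fst, Prod.smul_snd, inner_smul_right, smul_eq_mul, RingHom.id_apply]

lemma TT_apply (u : E d) (p : E d × ℝ) :
    TT u p = (p.1 - ⟪u, p.1⟫ • u + p.2 • u, ⟪u, p.1⟫) := rfl

lemma inner_proj {u : E d} (hu : ‖u‖ = 1) (x : E d) (t : ℝ) :
    ⟪u, x - ⟪u, x⟫ • u + t • u⟫ = t := by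
  have h : ⟪u, u⟫ = 1 := by rw [real_inner_self_eq_norm_sq, hu]; norm_num
  rw [inner_add_right, inner_sub_right, inner_smul_right, inner_smul_right, h]
  ring

lemma TT_TT {u : E d} (hu : ‖u‖ = 1) (p : E d × ℝ) : TT u (TT u p) = p := by
  rw [TT_apply u (TT u p), TT_apply u p]
  simp only
  rw [inner_proj hu]
  ext1
  · simp only
    rw [add_sub_cancel_right, sub_add_cancel]
  · rfl

lemma TT_mp {u : E d} (hu : ‖u‖ = 1) :
    MeasurePreserving (TT u) ((volume : Measure (E d)).prod (volume : Measure ℝ))
      ((volume : Measure (E d)).prod (volume : Measure ℝ)) := by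
  have hc : TT u * TT u = 1 := by
    apply LinearMap.ext
    intro p
    exact TT_TT hu p
  have hd : LinearMap.det (TT u) * LinearMap.det (TT u) = 1 := by
    rw [← map_mul, hc, map_one]
  have hd0 : LinearMap.det (TT u) ≠ 0 := by
    intro h
    rw [h] at hd
    norm_num at hd
  have habs : |(LinearMap.det (TT u))⁻¹| = 1 := by
    rw [abs_inv]
    have : |LinearMap.det (TT u)| * |LinearMap.det (TT u)| = 1 := by
      rw [← abs_mul, hd, abs_one]
    have h2 : |LinearMap.det (TT u)| = 1 := by
      have h3 := abs_nonneg (LinearMap.det (TT u))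
      nlinarith
    rw [h2, inv_one]
  refine ⟨(LinearMap.continuous_of_finiteDimensional _).measurable, ?_⟩
  rw [Measure.map_linearMap_addHaar_eq_smul_addHaar _ hd0, habs]
  simp

/-- the slab -/
def Slab (u : E d) : Set (E d) := {x | ⟪u, x⟫ ∈ Ico (0:ℝ) 1}

lemma vol_eq {u : E d} (hu : ‖u‖ = 1) {A : Set (E d)} (hA : MeasurableSet A) :
    volume A = ∫⁻ x in Slab u, volume (slice u A x) := by
  have h1 := (TT_mp hu).measure_preimage (s := A ×ˢ Ico (0:ℝ) 1)
    (hA.prod measurableSet_Ico).nullMeasurableSet
  rw [Measure.prod_prod, Real.volume_Ico] at h1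
  simp only [sub_zero, ENNReal.ofReal_one, mul_one] at h1
  rw [← h1, Measure.prod_apply ((TT_mp hu).measurable (hA.prod measurableSet_Ico))]
  have hs : MeasurableSet (Slab u) := by
    have : Measurable fun x : E d => ⟪u, x⟫ := by fun_prop
    exact this measurableSet_Ico
  rw [← lintegral_indicator hs]
  congr 1
  funext x
  by_cases hx : x ∈ Slab u
  · rw [indicator_of_mem hx]
    congr 1
    ext t
    simp only [mem_preimage, TT_apply, mem_prod, slice, Set.mem_ofPred_eq]
    constructor
    · intro h; exact h.1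
    · intro h; exact ⟨h, hx⟩
  · rw [indicator_of_notMem hx]
    have : (Prod.mk x ⁻¹' (⇑(TT u) ⁻¹' A ×ˢ Ico (0:ℝ) 1)) = ∅ := by
      ext t
      simp only [mem_preimage, TT_apply, mem_prod, mem_empty_iff_false, iff_false, not_and]
      intro _ h
      exact hx h
    rw [this, measure_empty]

lemma slice_proj {u : E d} (hu : ‖u‖ = 1) (K : Set (E d)) (x : E d) (t : ℝ) :
    slice u K (x - ⟪u, x⟫ • u + t • u) = slice u K x := by
  unfold slice
  rw [inner_proj hu, add_sub_cancel_right]

lemma slice_St {u : E d} (hu : ‖u‖ = 1) {K : Set (E d)} (hK : IsCompact K) (x : E d) :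
    volume (slice u (St u K) x) = volume (slice u K x) := by
  have h1 : slice u (St u K) x =
      {t | (slice u K x).Nonempty ∧ ENNReal.ofReal (2 * |t|) ≤ volume (slice u K x)} := by
    ext t
    show (x - ⟪u, x⟫ • u + t • u) ∈ St u K ↔ _
    unfold St
    rw [Set.mem_ofPred_eq, slice_proj hu, inner_proj hu]
    rfl
  rw [h1]
  by_cases hne : (slice u K x).Nonempty
  · obtain ⟨R, hR⟩ := hK.isBounded.subset_closedBall 0
    have hfin : volume (slice u K x) ≠ ⊤ := by
      have hsub : slice u K x ⊆ Icc (-R) R := by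
        intro t ht
        have h2 : (x - ⟪u, x⟫ • u + t • u) ∈ K := ht
        have h3 := hR h2
        rw [mem_closedBall_zero_iff] at h3
        have h4 : |t| ≤ R := by
          rw [← inner_proj hu x t]
          refine (abs_real_inner_le_norm _ _).trans ?_
          rw [hu, one_mul]
          exact h3
        exact abs_le.1 h4
      exact ((measure_mono hsub).trans_lt (by simp)).ne
    set v := volume (slice u K x) with hv
    have h3 : {t : ℝ | (slice u K x).Nonempty ∧ ENNReal.ofReal (2 * |t|) ≤ v}
        = Icc (-(v.toReal / 2)) (v.toReal / 2) := by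
      ext t
      rw [Set.mem_ofPred_eq, mem_Icc, ← abs_le]
      rw [ENNReal.ofReal_le_iff_le_toReal hfin]
      constructor
      · rintro ⟨-, h⟩; linarith
      · intro h; exact ⟨hne, by linarith⟩
    rw [h3, Real.volume_Icc]
    have : v.toReal / 2 - -(v.toReal / 2) = v.toReal := by ring
    rw [this, ENNReal.ofReal_toReal hfin]
  · have h2 : slice u K x = ∅ := not_nonempty_iff_eq_empty.1 hne
    have h3 : {t : ℝ | (slice u K x).Nonempty ∧ ENNReal.ofReal (2 * |t|) ≤ volume (slice u K x)}
        = ∅ := by
      ext t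
      simp [hne]
    rw [h3, h2]

lemma meas_St {u : E d} (hu : ‖u‖ = 1) {K : Set (E d)} (hK : IsCompact K) :
    MeasurableSet (St u K) := by
  have hP : Continuous fun x : E d => x - ⟪u, x⟫ • u := by fun_prop
  have h1 : MeasurableSet {x : E d | (slice u K x).Nonempty} := by
    have hcl : IsClosed {x : E d | (slice u K x).Nonempty} := by
      have e : {x : E d | (slice u K x).Nonempty} =
          (fun x : E d => x - ⟪u, x⟫ • u) ⁻¹' ((fun x : E d => x - ⟪u, x⟫ • u) '' K) := by
        ext x
        constructor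
        · rintro ⟨t, ht⟩
          refine ⟨_, ht, ?_⟩
          simp only
          rw [inner_proj hu, add_sub_cancel_right]
        · rintro ⟨k, hk, h⟩
          simp only at h
          refine ⟨⟪u, k⟫, ?_⟩
          show x - ⟪u, x⟫ • u + ⟪u, k⟫ • u ∈ K
          rw [← h, sub_add_cancel]
          exact hk
      rw [e]
      exact (hK.image hP).isClosed.preimage hP
    exact hcl.measurableSet
  have h2 : Measurable fun x : E d => volume (slice u K x) := by
    have hS : MeasurableSet {p : E d × ℝ | p.1 - ⟪u, p.1⟫ • u + p.2 • u ∈ K} := by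
      have hc : Continuous fun p : E d × ℝ => p.1 - ⟪u, p.1⟫ • u + p.2 • u := by fun_prop
      exact (hK.isClosed.preimage hc).measurableSet
    exact measurable_measure_prodMk_left (ν := (volume : Measure ℝ)) hS
  have h3 : Measurable fun x : E d => ENNReal.ofReal (2 * |⟪u, x⟫|) := by fun_prop
  exact h1.inter (measurableSet_le h3 h2)

theorem stv : Pool.Agent.W369.GM.S_STV := by
  intro d u K hu hK
  rw [vol_eq hu (meas_St hu hK), vol_eq hu hK.measurableSet]
  simp_rw [slice_St hu hK]

end Pool.Agent.W345.GM2
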