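import Pool.Agent.W345.GM2.MIN
set_option autoImplicit false

/-! Every boundary point of an extremal set is in an extremal frame. -/

namespace Pool.Agent.W345.GM2

open MeasureTheory Set Metric Filter Topology
open scoped RealInnerProductSpace NNReal
open Pool.Agent.W369.GM

variable {d : ℕ}

theorem ext (hI : Pool.Agent.W369.GM.S_INEQ) : Pool.Agent.W369.GM.S_EXT := by
  intro d K D hd hK x hx
  have hcl : IsClosed K := hK.compact.isClosed
  have hxK : x ∈ K := by
    have := frontier_subset_closure hx
    rwa [hcl.closure_eq] at this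
  have hstep : ∀ n : ℕ, ∃ v : Fin d → E d,
      (∀ i, v i ∈ K ∪ closedBall x (1 / ((n : ℝ) + 1))) ∧ D < dt v := by
    intro n
    have hpos : 0 < 1 / ((n : ℝ) + 1) := by positivity
    have hcomp : IsCompact (K ∪ closedBall x (1 / ((n : ℝ) + 1))) :=
      hK.compact.union (isCompact_closedBall _ _)
    have hvol : volume K < volume (K ∪ closedBall x (1 / ((n : ℝ) + 1))) := by
      set U : Set (E d) := ball x (1 / ((n : ℝ) + 1)) \ K with hU
      have hUo : IsOpen U := isOpen_ball.sdiff hcl
      have hUne : U.Nonempty := by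
        by_contra hcon
        rw [not_nonempty_iff_eq_empty, hU, sdiff_eq_empty] at hcon
        have : x ∈ interior K := mem_interior.2 ⟨_, hcon, isOpen_ball, mem_ball_self hpos⟩
        exact hx.2 this
      have hU0 : 0 < volume U := hUo.measure_pos volume hUne
      have hfin : volume K ≠ ⊤ := hK.compact.measure_lt_top.ne
      calc volume K < volume K + volume U := ENNReal.lt_add_right hfin hU0.ne'
        _ = volume (K ∪ U) := (measure_union disjoint_sdiff_right hUo.measurableSet).symm
        _ ≤ _ := measure_mono (union_subset_union_right _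
          ((sdiff_subset).trans ball_subset_closedBall))
    have hnot : ¬ DB (K ∪ closedBall x (1 / ((n : ℝ) + 1))) D := by
      intro h
      have h1 := hI d _ D hd hK.pos.le hcomp h
      rw [← hK.vol] at h1
      exact absurd h1 (not_le.2 hvol)
    unfold DB at hnot
    push Not at hnot
    exact hnot
  choose v hv hD using hstep
  have hi : ∀ n : ℕ, ∃ i, v n i ∈ closedBall x (1 / ((n : ℝ) + 1)) := by
    intro n
    by_contra hcon
    push Not at hcon
    have : ∀ i, v n i ∈ K := fun i => (hv n i).resolve_right (hcon i)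
    exact absurd (hK.db _ this) (not_le.2 (hD n))
  choose i hi using hi
  set F : Ultrafilter ℕ := Filter.hyperfilter ℕ with hF
  have hFat : (F : Filter ℕ) ≤ atTop := by
    rw [← Nat.cofinite_eq_atTop]
    exact Filter.hyperfilter_le_cofinite
  have hone : Tendsto (fun n : ℕ => 1 / ((n : ℝ) + 1)) F (𝓝 0) :=
    tendsto_one_div_add_atTop_nhds_zero_nat.mono_left hFat
  have hcomp : IsCompact ((Set.univ.pi fun _ : Fin d => K ∪ closedBall x 1) ×ˢ
      (Set.univ : Set (Fin d))) :=
    (isCompact_univ_pi fun _ => hK.compact.union (isCompact_closedBall _ _)).prod isCompact_univ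
  have hmem : ∀ n, (v n, i n) ∈ (Set.univ.pi fun _ : Fin d => K ∪ closedBall x 1) ×ˢ
      (Set.univ : Set (Fin d)) := by
    intro n
    refine ⟨fun k _ => ?_, mem_univ _⟩
    rcases hv n k with h | h
    · exact Or.inl h
    · refine Or.inr (closedBall_subset_closedBall ?_ h)
      rw [div_le_one (by positivity)]
      have : (0:ℝ) ≤ n := Nat.cast_nonneg n
      linarith
  obtain ⟨⟨w, j⟩, -, hw⟩ := hcomp.ultrafilter_le_nhds (F.map fun n => (v n, i n)) (by
    rw [le_principal_iff]
    exact Filter.mem_map.2 (Filter.univ_mem' hmem))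
  have hw' : Tendsto (fun n => (v n, i n)) F (𝓝 (w, j)) := hw
  have hwv : Tendsto v F (𝓝 w) := (continuous_fst.tendsto _).comp hw'
  have hwi : Tendsto i F (𝓝 j) := (continuous_snd.tendsto _).comp hw'
  have hij : ∀ᶠ n in (F : Filter ℕ), i n = j := by
    rw [nhds_discrete, tendsto_pure] at hwi
    exact hwi
  have hwk : ∀ k, Tendsto (fun n => v n k) F (𝓝 (w k)) := fun k =>
    ((continuous_apply k).tendsto _).comp hwv
  have hwK : ∀ k, w k ∈ K := by
    intro k
    rw [hcl.mem_iff_infDist_zero ⟨x, hxK⟩]
    have h1 : Tendsto (fun n => infDist (v n k) K) F (𝓝 (infDist (w k) K)) :=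
      ((continuous_infDist_pt K).tendsto _).comp (hwk k)
    have h2 : Tendsto (fun n => infDist (v n k) K) F (𝓝 0) := by
      apply squeeze_zero (fun n => infDist_nonneg) _ hone
      intro n
      rcases hv n k with h | h
      · rw [infDist_zero_of_mem h]; positivity
      · exact (infDist_le_dist_of_mem hxK).trans h
    exact tendsto_nhds_unique h1 h2
  refine ⟨w, hwK, le_antisymm (hK.db w hwK) ?_, j, ?_⟩
  · have h1 : Tendsto (fun n => dt (v n)) F (𝓝 (dt w)) := (dt_cont.tendsto w).comp hwv
    exact ge_of_tendsto h1 (Eventually.of_forall fun n => (hD n).le)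
  · have h1 : Tendsto (fun n => dist (v n j) x) F (𝓝 (dist (w j) x)) :=
      (hwk j).dist tendsto_const_nhds
    have h2 : Tendsto (fun n => dist (v n j) x) F (𝓝 0) := by
      apply squeeze_zero' (Eventually.of_forall fun n => dist_nonneg) _ hone
      filter_upwards [hij] with n hn
      rw [← hn]
      exact hi n
    exact dist_eq_zero.1 (tendsto_nhds_unique h1 h2)

end Pool.Agent.W345.GM2
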