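import Pool.Agent.W345.GM2.STR
set_option autoImplicit false

/-! The Steiner symmetral of a compact set is compact. -/

namespace Pool.Agent.W345.GM2

open MeasureTheory Set Metric Filter Topology
open scoped RealInnerProductSpace
open Pool.Agent.W369.GM

variable {d : ℕ}

lemma closed_ne {u : E d} (hu : ‖u‖ = 1) {K : Set (E d)} (hK : IsCompact K) :
    IsClosed {x : E d | (slice u K x).Nonempty} := by
  have hP : Continuous fun x : E d => x - ⟪u, x⟫ • u := by fun_prop
  have e : {x : E d | (slice u K x).Nonempty} =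
      (fun x : E d => x - ⟪u, x⟫ • u) ⁻¹' ((fun x : E d => x - ⟪u, x⟫ • u) '' K) := by
    ext x
    constructor
    · rintro ⟨t, ht⟩
      refine ⟨_, ht, ?_⟩
      simp only
      rw [inner_proj hu, add_sub_cancel_right]
    · rintro ⟨k, hk, h⟩
      simp only at h
      refine ⟨⟪u, k⟫, ?_⟩
      show x - ⟪u, x⟫ • u + ⟪u, k⟫ • u ∈ K
      rw [← h, sub_add_cancel]
      exact hk
  rw [e]
  exact (hK.image hP).isClosed.preimage hP

lemma slice_bdd {u : E d} (hu : ‖u‖ = 1) {K : Set (E d)} {R : ℝ} (hR : K ⊆ closedBall 0 R)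
    (x : E d) : slice u K x ⊆ Icc (-R) R := by
  intro t ht
  have h2 : (x - ⟪u, x⟫ • u + t • u) ∈ K := ht
  have h3 := hR h2
  rw [mem_closedBall_zero_iff] at h3
  have h4 : |t| ≤ R := by
    rw [← inner_proj hu x t]
    refine (abs_real_inner_le_norm _ _).trans ?_
    rw [hu, one_mul]
    exact h3
  exact abs_le.1 h4

lemma near_sub {u : E d} (hu : ‖u‖ = 1) {K : Set (E d)} (hK : IsCompact K) (x : E d) {U : Set ℝ}
    (hU : IsOpen U) (hx : slice u K x ⊆ U) : ∀ᶠ y in 𝓝 x, slice u K y ⊆ U := by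
  obtain ⟨R, hR⟩ := hK.isBounded.subset_closedBall 0
  have hT : IsCompact (Icc (-R) R \ U) := isCompact_Icc.diff hU
  have h1 : ∀ᶠ y in 𝓝 x, ∀ t ∈ Icc (-R) R \ U, y - ⟪u, y⟫ • u + t • u ∉ K := by
    apply hT.eventually_forall_of_forall_eventually
    intro t ht
    have hc : Continuous fun p : E d × ℝ => p.1 - ⟪u, p.1⟫ • u + p.2 • u := by fun_prop
    have h2 : x - ⟪u, x⟫ • u + t • u ∉ K := fun h => ht.2 (hx h)
    have h3 : Kᶜ ∈ 𝓝 (x - ⟪u, x⟫ • u + t • u) := hK.isClosed.isOpen_compl.mem_nhds h2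
    exact (hc.tendsto (x, t)).eventually h3
  filter_upwards [h1] with y hy t ht
  by_contra hU'
  exact hy t ⟨slice_bdd hu hR y ht, hU'⟩ ht

theorem stc : Pool.Agent.W369.GM.S_STC := by
  intro d u K hu hK
  obtain ⟨R, hR⟩ := hK.isBounded.subset_closedBall 0
  have hb : St u K ⊆ closedBall 0 R := (str d u K R hu hK hR).1
  refine isCompact_of_isClosed_isBounded ?_ (isBounded_closedBall.subset hb)
  rw [← isOpen_compl_iff, isOpen_iff_mem_nhds]
  intro x hx
  by_cases hne : (slice u K x).Nonempty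
  · have hlt : volume (slice u K x) < ENNReal.ofReal (2 * |⟪u, x⟫|) := by
      by_contra hcon
      exact hx ⟨hne, not_lt.1 hcon⟩
    obtain ⟨U, hU1, hU2, hU3⟩ := (slice u K x).exists_isOpen_lt_of_lt _ hlt
    have h1 := near_sub hu hK x hU2 hU1
    have h2 : ∀ᶠ y in 𝓝 x, volume U < ENNReal.ofReal (2 * |⟪u, y⟫|) := by
      have hc : Continuous fun y : E d => ENNReal.ofReal (2 * |⟪u, y⟫|) := by
        apply ENNReal.continuous_ofReal.comp
        fun_prop
      exact (hc.tendsto x).eventually (lt_mem_nhds hU3)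
    filter_upwards [h1, h2] with y hy1 hy2
    rintro ⟨-, hy3⟩
    exact absurd (hy3.trans (measure_mono hy1)) (not_le.2 hy2)
  · have h1 : {x : E d | (slice u K x).Nonempty}ᶜ ∈ 𝓝 x :=
      (closed_ne hu hK).isOpen_compl.mem_nhds hne
    filter_upwards [h1] with y hy
    rintro ⟨h2, -⟩
    exact hy h2

end Pool.Agent.W345.GM2
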