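import Pool.Agent.W345.GM2.STC
set_option autoImplicit false

/-! Steiner symmetrisation does not increase the maximal determinant. -/

namespace Pool.Agent.W345.GM2

open MeasureTheory Set Metric Filter Topology
open scoped RealInnerProductSpace
open Pool.Agent.W369.GM

variable {d : ℕ}

/-- the determinant as a linear function of the heights -/
noncomputable def LL (P : Matrix (Fin d) (Fin d) ℝ) (u : Fin d → ℝ) : (Fin d → ℝ) →ₗ[ℝ] ℝ where
  toFun s := ∑ j, u j * Matrix.cramer P s j
  map_add' s t := by
    rw [map_add]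
    simp only [Pi.add_apply, mul_add, Finset.sum_add_distrib]
  map_smul' c s := by
    rw [map_smul]
    simp only [Pi.smul_apply, smul_eq_mul, RingHom.id_apply, Finset.mul_sum]
    apply Finset.sum_congr rfl
    intro j _
    ring

lemma det_rank_one (P : Matrix (Fin d) (Fin d) ℝ) (u s : Fin d → ℝ) (hu : ∑ j, u j * u j = 1)
    (hP : ∀ i, ∑ j, P i j * u j = 0) :
    (Matrix.of fun i j => P i j + s i * u j).det = LL P u s := by
  set M : Matrix (Fin d) (Fin d) ℝ := Matrix.of fun i j => P i j + s i * u j with hM
  have h1 : M.mulVec u = s := by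
    funext i
    simp only [Matrix.mulVec, dotProduct, hM, Matrix.of_apply, add_mul, Finset.sum_add_distrib, hP,
      zero_add, mul_assoc, ← Finset.mul_sum, hu, mul_one]
  have h2 : ∀ j, M.det * u j = Matrix.cramer P s j := by
    intro j
    have h3 : Matrix.cramer M (M.mulVec u) = M.det • u := by
      rw [Matrix.cramer_eq_adjugate_mulVec, Matrix.mulVec_mulVec, Matrix.adjugate_mul,
        Matrix.smul_mulVec, Matrix.one_mulVec]
    rw [h1] at h3
    have h4 := congrFun h3 j
    rw [Pi.smul_apply, smul_eq_mul] at h4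
    rw [← h4, Matrix.cramer_apply, Matrix.cramer_apply]
    rw [← Matrix.det_transpose (M.updateCol j s), ← Matrix.det_transpose (P.updateCol j s)]
    apply Matrix.det_eq_of_forall_row_eq_smul_add_const (fun j' => if j' = j then 0 else u j') j
      (by simp)
    intro j' i
    rw [Matrix.transpose_apply, Matrix.transpose_apply, Matrix.transpose_apply]
    by_cases hj : j' = j
    · subst hj
      simp
    · simp only [if_neg hj]
      rw [Matrix.updateCol_ne hj, Matrix.updateCol_ne hj, Matrix.updateCol_self, hM,
        Matrix.of_apply]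
      ring
  show M.det = ∑ j, u j * Matrix.cramer P s j
  calc M.det = M.det * ∑ j, u j * u j := by rw [hu, mul_one]
    _ = ∑ j, u j * (M.det * u j) := by
      rw [Finset.mul_sum]
      apply Finset.sum_congr rfl
      intro j _
      ring
    _ = _ := by simp_rw [h2]

theorem std : Pool.Agent.W369.GM.S_STD := by
  intro d u K D hu hK hD w hw
  -- slices
  have hS : ∀ i, ∃ a b : ℝ, a ∈ slice u K (w i) ∧ b ∈ slice u K (w i) ∧
      2 * |⟪u, w i⟫| ≤ a - b := by
    intro i
    obtain ⟨hne, hle⟩ := hw i
    obtain ⟨R, hR⟩ := hK.isBounded.subset_closedBall 0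
    have hcont : Continuous fun t : ℝ => w i - ⟪u, w i⟫ • u + t • u := by fun_prop
    have hcl : IsClosed (slice u K (w i)) := hK.isClosed.preimage hcont
    have hcp : IsCompact (slice u K (w i)) := isCompact_Icc.of_isClosed_subset hcl
      (slice_bdd hu hR (w i))
    refine ⟨sSup (slice u K (w i)), sInf (slice u K (w i)), hcp.sSup_mem hne,
      hcp.sInf_mem hne, ?_⟩
    have hsub : slice u K (w i) ⊆ Icc (sInf (slice u K (w i))) (sSup (slice u K (w i))) := by
      intro t ht
      exact ⟨csInf_le hcp.bddBelow ht, le_csSup hcp.bddAbove ht⟩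
    have h1 := hle.trans (measure_mono hsub)
    rw [Real.volume_Icc] at h1
    refine (ENNReal.ofReal_le_ofReal_iff ?_).1 h1
    have := hsub hne.some_mem
    linarith [this.1, this.2]
  choose a b ha hb hab using hS
  set P : Matrix (Fin d) (Fin d) ℝ := Matrix.of fun i j => (w i - ⟪u, w i⟫ • u) j with hPdef
  have huu : ∑ j, u j * u j = 1 := by
    have : ⟪u, u⟫ = 1 := by rw [real_inner_self_eq_norm_sq, hu]; norm_num
    rw [← this, PiLp.inner_apply]
    rfl
  have hP : ∀ i, ∑ j, P i j * u j = 0 := by
    intro i
    have h := inner_proj hu (w i) 0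
    rw [zero_smul, add_zero] at h
    rw [← h, PiLp.inner_apply]
    apply Finset.sum_congr rfl
    intro j _
    rw [hPdef, Matrix.of_apply]
    rfl
  have hf : ∀ s : Fin d → ℝ, dt (fun i => w i - ⟪u, w i⟫ • u + s i • u) = |LL P u s| := by
    intro s
    rw [← det_rank_one P u s huu hP]
    unfold dt
    congr 2
  have hK' : ∀ s : Fin d → ℝ, (∀ i, s i ∈ slice u K (w i)) → |LL P u s| ≤ D := by
    intro s hs
    rw [← hf]
    exact hD _ fun i => hs i
  have hlin : ∀ s : Fin d → ℝ, LL P u s =
      ∑ i, s i * LL P u (fun j => if i = j then 1 else 0) := by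
    intro s
    rw [LinearMap.pi_apply_eq_sum_univ (LL P u) s]
    rfl
  set C : Fin d → ℝ := fun i => LL P u (fun j => if i = j then 1 else 0) with hC
  set sp : Fin d → ℝ := fun i => if 0 ≤ C i then a i else b i with hsp
  set sm : Fin d → ℝ := fun i => if 0 ≤ C i then b i else a i with hsm
  have h1 : |LL P u sp| ≤ D := hK' sp fun i => by
    simp only [hsp]; split_ifs
    · exact ha i
    · exact hb i
  have h2 : |LL P u sm| ≤ D := hK' sm fun i => by
    simp only [hsm]; split_ifs
    · exact hb i
    · exact ha i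
  have h3 : LL P u sp - LL P u sm = ∑ i, (a i - b i) * |C i| := by
    rw [hlin sp, hlin sm, ← Finset.sum_sub_distrib]
    apply Finset.sum_congr rfl
    intro i _
    show sp i * C i - sm i * C i = _
    simp only [hsp, hsm]
    split_ifs with h
    · rw [abs_of_nonneg h]; ring
    · rw [abs_of_neg (not_le.1 h)]; ring
  have h4 : dt w = |LL P u (fun i => ⟪u, w i⟫)| := by
    rw [← hf]
    congr 1
    funext i
    rw [sub_add_cancel]
  have h5 : 2 * |LL P u (fun i => ⟪u, w i⟫)| ≤ ∑ i, (a i - b i) * |C i| := by
    rw [hlin]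
    calc 2 * |∑ i, ⟪u, w i⟫ * C i| ≤ 2 * ∑ i, |⟪u, w i⟫ * C i| := by
          apply mul_le_mul_of_nonneg_left (Finset.abs_sum_le_sum_abs _ _) (by norm_num)
      _ = ∑ i, (2 * |⟪u, w i⟫|) * |C i| := by
          rw [Finset.mul_sum]
          apply Finset.sum_congr rfl
          intro i _
          rw [abs_mul]
          ring
      _ ≤ _ := by
          apply Finset.sum_le_sum
          intro i _
          exact mul_le_mul_of_nonneg_right (hab i) (abs_nonneg _)
  rw [h4]
  have h6 := (abs_le.1 h1).2
  have h7 := (abs_le.1 h2).1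
  linarith

end Pool.Agent.W345.GM2
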